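import Pool.Agent.R977.GWForest

/-!
# Conditioned-tree equality forces equal supports for irreducible branching families

For one-row matrices `Γ` with entries in `ℕ`, condition (ii) implies condition (i) whenever the
family `ζ` is irreducible, every type has a finite tree with positive probability, and some type
has at least two children with positive probability. Nothing is assumed on `ζ'`.
-/

set_option autoImplicit false

open MeasureTheory ProbabilityTheory Set
open scoped ENNReal

namespace Pool.Agent.Results.MP_e34f63_pr.IrreducibleSupports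

open Pool.Agent.R977.GWTree

variable {K : ℕ}

theorem mem_weightEvent {Γ : Fin K → ℕ} (F : Finset (List ℕ × Fin K)) :
    (F : Set (List ℕ × Fin K)) ∈ weightEvent Γ (∑ p ∈ F, Γ p.2) := by
  classical
  have h1 : ∀ k, numType (F : Set (List ℕ × Fin K)) k = ((F.filter fun p => p.2 = k).card : ℕ∞) := by
    intro k
    have : (fun u : List ℕ => (u, k)) '' {u | (u, k) ∈ (F : Set (List ℕ × Fin K))} =
        ((F.filter fun p => p.2 = k : Finset (List ℕ × Fin K)) : Set (List ℕ × Fin K)) := by
      ext ⟨u, j⟩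
      simp only [mem_image, mem_ofPred_eq, Finset.mem_coe, Prod.mk.injEq, Finset.mem_filter]
      constructor
      · rintro ⟨v, h1, h2, h3⟩
        subst h2
        subst h3
        exact ⟨h1, rfl⟩
      · rintro ⟨h1, h2⟩
        subst h2
        exact ⟨u, h1, rfl, rfl⟩
    unfold numType
    rw [← encard_coe_eq_coe_finsetCard, ← this, Function.Injective.encard_image]
    intro u v huv
    exact (Prod.mk.inj huv).1
  change ∑ k, (Γ k : ℕ∞) * numType (F : Set (List ℕ × Fin K)) k = _
  simp only [h1]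
  rw [← Finset.sum_fiberwise F (fun p => p.2) (fun p => Γ p.2)]
  push_cast
  refine Finset.sum_congr rfl fun k _ => ?_
  rw [Finset.sum_congr rfl (g := fun _ => (Γ k : ℕ∞))]
  · rw [Finset.sum_const, nsmul_eq_mul, mul_comm]
  · intro p hp
    rw [(Finset.mem_filter.1 hp).2]

theorem zero_iff {Γ : Fin K → ℕ} {ζ ζ' : Fin K → PMF (List (Fin K))}
    (h : CondLawsAgree Γ ζ ζ') {i : Fin K} {F : Finset (List ℕ × Fin K)}
    (hE : treeLaw ζ i (weightEvent Γ (∑ p ∈ F, Γ p.2)) ≠ 0) :
    treeLaw ζ i {(F : Set (List ℕ × Fin K))} = 0 ↔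
      treeLaw ζ' i {(F : Set (List ℕ × Fin K))} = 0 := by
  have hm := measurableSet_weightEvent Γ (∑ p ∈ F, Γ p.2)
  have heq := h i _ hE
  have hE' : treeLaw ζ' i (weightEvent Γ (∑ p ∈ F, Γ p.2)) ≠ 0 := by
    intro h0
    have h1 : (treeLaw ζ i)[|weightEvent Γ (∑ p ∈ F, Γ p.2)] = 0 := by
      rw [heq, cond_eq_zero]
      exact Or.inr h0
    rw [cond_eq_zero] at h1
    rcases h1 with h1 | h1
    · exact measure_ne_top _ _ h1
    · exact hE h1
  have h1 := congrArg (fun μ : Measure (Set (List ℕ × Fin K)) =>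
    μ {(F : Set (List ℕ × Fin K))}) heq
  rw [cond_apply hm, cond_apply hm,
    inter_eq_right.2 (singleton_subset_iff.2 (mem_weightEvent F))] at h1
  constructor
  · intro h0
    rw [h0, mul_zero] at h1
    rcases mul_eq_zero.1 h1.symm with h2 | h2
    · exact absurd (ENNReal.inv_eq_zero.1 h2) (measure_ne_top _ _)
    · exact h2
  · intro h0
    rw [h0, mul_zero] at h1
    rcases mul_eq_zero.1 h1 with h2 | h2
    · exact absurd (ENNReal.inv_eq_zero.1 h2) (measure_ne_top _ _)
    · exact h2

theorem completions {ζ : Fin K → PMF (List (Fin K))} {q : Fin K × List (Fin K)} {Γ : Fin K → ℕ}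
    (hfin : ∀ i, treeLaw ζ i {T | T.Finite} ≠ 0) (i : Fin K) :
    ∃ s, Forest (fun i x => ζ i x ≠ 0) q Γ [i] s 0 := by
  have h := hfin i
  rw [measure_eq_tsum_singleton _ countable_finite_trees, ne_eq, ENNReal.tsum_eq_zero,
    not_forall] at h
  obtain ⟨⟨T, hT⟩, hne⟩ := h
  obtain ⟨F, rfl⟩ := Set.Finite.exists_finset_coe hT
  by_cases hY : ∃ Y, tree i Y = (F : Set (List ℕ × Fin K))
  · obtain ⟨Y, hY⟩ := hY
    simp only at hne
    rw [treeLaw_singleton _ _ Y F hY, ← ne_eq, Finset.prod_ne_zero_iff] at hne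
    exact forest_of_tree F.card i Y F le_rfl hY hne
  · exact absurd (treeLaw_singleton_of_not _ _ _ fun Y h => hY ⟨Y, h⟩) hne

/-- Let `Γ` be a matrix with one row, with entries in `ℕ`, and let `ζ` be an offspring family such
that

* every type has with positive probability a finite tree (`hfin`),
* `ζ` is irreducible: from every type one reaches every type in at least one step, where a step
  goes from a type to a letter of a word of positive probability (`hirr`),
* some type has at least two children with positive probability (`hbr`).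

Then, for every offspring family `ζ'`, condition (ii) implies condition (i). -/
theorem result (K : ℕ) (Γ : Fin K → ℕ) (ζ ζ' : Fin K → PMF (List (Fin K)))
    (hfin : ∀ i, treeLaw ζ i {T | T.Finite} ≠ 0)
    (hirr : ∀ i j, Relation.TransGen (fun a b => ∃ x, ζ a x ≠ 0 ∧ b ∈ x) i j)
    (hbr : ∃ i x, ζ i x ≠ 0 ∧ 2 ≤ x.length)
    (h : CondLawsAgree Γ ζ ζ') : SupportsAgree ζ ζ' := by
  -- the support of `ζ` is contained in the support of `ζ'`
  have hA : ∀ i x, ζ i x ≠ 0 → ζ' i x ≠ 0 := by
    intro i x hx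
    obtain ⟨s, hs⟩ := complete_word (S := fun i x => ζ i x ≠ 0) (q := (i, x)) (Γ := Γ)
      (completions hfin) x
    have hf := Forest.special (q := (i, x)) hs Forest.nil
    obtain ⟨Ys, Fs, h1, h2, h3, _⟩ := hf.realize
    obtain ⟨k, hk, p, hp, hpq⟩ := h3 (by omega)
    have hk0 : k = 0 := by simpa using hk
    subst hk0
    obtain ⟨hT, hw⟩ := h1 0 (by simp)
    have hT' : tree i (Ys 0) = (Fs 0 : Set (List ℕ × Fin K)) := hT
    have hpos : treeLaw ζ i {(Fs 0 : Set (List ℕ × Fin K))} ≠ 0 := by
      rw [treeLaw_singleton _ _ _ _ hT', Finset.prod_ne_zero_iff]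
      intro r hr
      rcases hw r hr with h4 | h4
      · exact h4
      · rw [Prod.mk.injEq] at h4
        rw [h4.1, h4.2]
        exact hx
    have hE : treeLaw ζ i (weightEvent Γ (∑ p ∈ Fs 0, Γ p.2)) ≠ 0 := by
      intro h0
      exact hpos (measure_mono_null (singleton_subset_iff.2 (mem_weightEvent _)) h0)
    have hpos' : treeLaw ζ' i {(Fs 0 : Set (List ℕ × Fin K))} ≠ 0 := fun h0 =>
      hpos ((zero_iff h hE).2 h0)
    rw [treeLaw_singleton _ _ _ _ hT', Finset.prod_ne_zero_iff] at hpos'
    have := hpos' p hp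
    rw [Prod.mk.injEq] at hpq
    rwa [hpq.1, hpq.2] at this
  intro i x
  constructor
  · intro hx
    by_contra hx'
    obtain ⟨w, c, hc, hf1, hf2⟩ := exists_same_weight (S := fun i x => ζ i x ≠ 0) (q := (i, x))
      (Γ := Γ) (completions hfin) hirr hbr
    obtain ⟨Y1, F1, a1, a2, a3, _⟩ := hf1.realize
    obtain ⟨Y2, F2, b1, b2, _, b4⟩ := hf2.realize
    obtain ⟨k, hk, p, hp, hpq⟩ := a3 hc
    have hk0 : k = 0 := by simpa using hk
    subst hk0
    obtain ⟨hT1, hw1⟩ := a1 0 (by simp)
    obtain ⟨hT2, _⟩ := b1 0 (by simp)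
    have hT1' : tree i (Y1 0) = (F1 0 : Set (List ℕ × Fin K)) := hT1
    have hT2' : tree i (Y2 0) = (F2 0 : Set (List ℕ × Fin K)) := hT2
    have hs1 : ∑ p ∈ F1 0, Γ p.2 = w := by simpa using a2
    have hs2 : ∑ p ∈ F2 0, Γ p.2 = w := by simpa using b2
    have hpos2 : treeLaw ζ i {(F2 0 : Set (List ℕ × Fin K))} ≠ 0 := by
      rw [treeLaw_singleton _ _ _ _ hT2', Finset.prod_ne_zero_iff]
      exact fun r hr => b4 rfl 0 (by simp) r hr
    have hE : treeLaw ζ i (weightEvent Γ (∑ p ∈ F1 0, Γ p.2)) ≠ 0 := by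
      rw [hs1, ← hs2]
      intro h0
      exact hpos2 (measure_mono_null (singleton_subset_iff.2 (mem_weightEvent _)) h0)
    have h0 : treeLaw ζ i {(F1 0 : Set (List ℕ × Fin K))} = 0 := by
      rw [treeLaw_singleton _ _ _ _ hT1']
      refine Finset.prod_eq_zero hp ?_
      rw [Prod.mk.injEq] at hpq
      rw [hpq.1, hpq.2]
      exact hx
    have h0' := (zero_iff h hE).1 h0
    rw [treeLaw_singleton _ _ _ _ hT1'] at h0'
    obtain ⟨r, hr, hr0⟩ := Finset.prod_eq_zero_iff.1 h0'
    rcases hw1 r hr with h4 | h4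
    · exact hA _ _ h4 hr0
    · rw [Prod.mk.injEq] at h4
      rw [h4.1, h4.2] at hr0
      exact hx' hr0
  · intro hx'
    by_contra hx
    exact hA i x hx hx'

end Pool.Agent.Results.MP_e34f63_pr.IrreducibleSupports
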