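import Pool.Agent.R977.GWTree

/-!
# Conditioned-tree equality does not force equal supports, already for one row

Two types, `Γ = (1, 1)` (conditioning on the total number of vertices). Type `1` has the children
`∅` or `(1,1)`, type `0` never appears as a child and has the children `∅` or `(1,1)` under `ζ`
and `∅`, `(1)` or `(1,1)` under `ζ'`. All trees with root type `0` and root word `∅` or `(1,1)`
have an odd number of vertices, those with root word `(1)` an even number. So conditioning on any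
total size that is possible under `ζ` gives the same law under `ζ` and `ζ'`.
-/

set_option autoImplicit false

open MeasureTheory ProbabilityTheory Set
open scoped ENNReal

namespace Pool.Agent.Results.MP_e34f63_pr.SingleRowFails

open Pool.Agent.R977.GWTree

/-- The words `∅`, `(1,1)`. -/
def W2 : Finset (List (Fin 2)) := {[], [1, 1]}

/-- The words `∅`, `(1)`, `(1,1)`. -/
def W3 : Finset (List (Fin 2)) := {[], [1], [1, 1]}

theorem W2_ne : W2.Nonempty := ⟨[], by simp [W2]⟩
theorem W3_ne : W3.Nonempty := ⟨[], by simp [W3]⟩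

/-- The offspring laws `ζ`: both types have the children `∅` or `(1,1)`, with probability `1/2`
each. -/
noncomputable def zeta : Fin 2 → PMF (List (Fin 2)) := fun _ => PMF.uniformOfFinset W2 W2_ne

/-- The offspring laws `ζ'`: type `0` has the children `∅`, `(1)`, `(1,1)` with probability `1/3`
each, type `1` has the children `∅` or `(1,1)` with probability `1/2` each. -/
noncomputable def zeta' : Fin 2 → PMF (List (Fin 2)) := fun i =>
  if i = 0 then PMF.uniformOfFinset W3 W3_ne else PMF.uniformOfFinset W2 W2_ne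

theorem zeta_apply (i : Fin 2) (w : List (Fin 2)) : zeta i w = if w ∈ W2 then (2 : ℝ≥0∞)⁻¹ else 0 := by
  unfold zeta
  rw [PMF.uniformOfFinset_apply]
  have hc : W2.card = 2 := by decide
  by_cases h : w ∈ W2 <;> simp [h, hc]

theorem zeta'_zero (w : List (Fin 2)) : zeta' 0 w = if w ∈ W3 then (3 : ℝ≥0∞)⁻¹ else 0 := by
  unfold zeta'
  rw [if_pos rfl, PMF.uniformOfFinset_apply]
  have hc : W3.card = 3 := by decide
  by_cases h : w ∈ W3 <;> simp [h, hc]

theorem zeta'_one (w : List (Fin 2)) : zeta' 1 w = if w ∈ W2 then (2 : ℝ≥0∞)⁻¹ else 0 := by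
  unfold zeta'
  rw [if_neg (by decide), PMF.uniformOfFinset_apply]
  have hc : W2.card = 2 := by decide
  by_cases h : w ∈ W2 <;> simp [h, hc]

theorem even_of_W2 {w : List (Fin 2)} (h : w ∈ W2) : Even w.length := by
  simp only [W2, Finset.mem_insert, Finset.mem_singleton] at h
  rcases h with rfl | rfl <;> decide

theorem zero_notMem {w : List (Fin 2)} (h : w ∈ W3) : (0 : Fin 2) ∉ w := by
  simp only [W3, Finset.mem_insert, Finset.mem_singleton] at h
  rcases h with rfl | rfl | rfl <;> decide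

theorem W2_sub : W2 ⊆ W3 := by
  intro w hw
  simp only [W2, W3, Finset.mem_insert, Finset.mem_singleton] at hw ⊢
  tauto

theorem eq_one_of {w : List (Fin 2)} (h3 : w ∈ W3) (h2 : w ∉ W2) : w = [1] := by
  simp only [W2, W3, Finset.mem_insert, Finset.mem_singleton] at h3 h2
  tauto

theorem zeta'_notMem_W3 {i : Fin 2} {w : List (Fin 2)} (h : w ∉ W3) : zeta' i w = 0 := by
  rcases Fin.exists_fin_two.1 ⟨i, rfl⟩ with rfl | rfl
  · rw [zeta'_zero, if_neg h]
  · rw [zeta'_one, if_neg fun h' => h (W2_sub h')]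

/-- A tree with a non-root vertex of type `0` has probability zero. -/
theorem child0 {i : Fin 2} {Y : List ℕ × Fin 2 → List (Fin 2)} {F : Finset (List ℕ × Fin 2)}
    (hF : tree i Y = (F : Set (List ℕ × Fin 2))) {u : List ℕ} (hu : u ≠ []) (h : (u, 0) ∈ F) :
    ∃ p ∈ F, Y p ∉ W3 := by
  have hmem : ∀ u j, (u, j) ∈ F ↔ typ i Y u = some j := fun u j => by
    rw [← Finset.mem_coe, ← hF, mem_tree]
  cases u with
  | nil => exact absurd rfl hu
  | cons m u =>
    rw [hmem] at h
    simp only [typ, Option.bind_eq_some_iff] at h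
    obtain ⟨j', h1, h2⟩ := h
    refine ⟨(u, j'), (hmem _ _).2 h1, fun h3 => zero_notMem h3 ?_⟩
    exact List.mem_of_getElem? h2

theorem prod_eq_zero_of {F : Finset (List ℕ × Fin 2)} {Y : List ℕ × Fin 2 → List (Fin 2)}
    (h : ∃ p ∈ F, Y p ∉ W3) :
    ∏ p ∈ F, zeta p.2 (Y p) = 0 ∧ ∏ p ∈ F, zeta' p.2 (Y p) = 0 := by
  obtain ⟨p, hp, hY⟩ := h
  constructor
  · exact Finset.prod_eq_zero hp (by rw [zeta_apply, if_neg fun h' => hY (W2_sub h')])
  · exact Finset.prod_eq_zero hp (zeta'_notMem_W3 hY)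

theorem root_mem {i : Fin 2} {Y : List ℕ × Fin 2 → List (Fin 2)} {F : Finset (List ℕ × Fin 2)}
    (hF : tree i Y = (F : Set (List ℕ × Fin 2))) : (([], i) : List ℕ × Fin 2) ∈ F := by
  rw [← Finset.mem_coe, ← hF, mem_tree]
  rfl

theorem root_type {i j : Fin 2} {Y : List ℕ × Fin 2 → List (Fin 2)}
    {F : Finset (List ℕ × Fin 2)} (hF : tree i Y = (F : Set (List ℕ × Fin 2)))
    (h : (([], j) : List ℕ × Fin 2) ∈ F) : j = i := by
  rw [← Finset.mem_coe, ← hF, mem_tree] at h
  simp only [typ, Option.some.injEq] at h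
  exact h.symm

/-- The weight event for `Γ = (1, 1)` is: the tree has `g` vertices. -/
theorem encard_of_weight {g : ℕ} {T : Set (List ℕ × Fin 2)} (hT : T ∈ weightEvent (fun _ => 1) g) :
    T.encard = g := by
  rw [encard_eq_sum]
  have : ∑ k : Fin 2, ((1 : ℕ) : ℕ∞) * numType T k = g := hT
  simpa using this

theorem finite_of_weight {g : ℕ} {T : Set (List ℕ × Fin 2)}
    (hT : T ∈ weightEvent (fun _ => 1) g) : T.Finite := by
  rw [← encard_lt_top_iff, encard_of_weight hT]
  exact ENat.natCast_lt_top g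

theorem card_of_weight {g : ℕ} {F : Finset (List ℕ × Fin 2)}
    (hT : (F : Set (List ℕ × Fin 2)) ∈ weightEvent (fun _ => 1) g) : F.card = g := by
  have := encard_of_weight hT
  rw [encard_coe_eq_coe_finsetCard] at this
  exact_mod_cast this

theorem odd_card {i : Fin 2} {Y : List ℕ × Fin 2 → List (Fin 2)} {F : Finset (List ℕ × Fin 2)}
    (hF : tree i Y = (F : Set (List ℕ × Fin 2))) (h : ∀ p ∈ F, Y p ∈ W2) : Odd F.card := by
  rw [card_tree hF]
  have : Even (∑ p ∈ F, (Y p).length) := Finset.even_sum _ fun p hp => even_of_W2 (h p hp)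
  exact this.one_add

theorem odd_of_pos {i : Fin 2} {g : ℕ} (h : treeLaw zeta i (weightEvent (fun _ => 1) g) ≠ 0) :
    Odd g := by
  have hc : (weightEvent (K := 2) (fun _ => 1) g).Countable :=
    countable_finite_trees.mono fun T hT => finite_of_weight hT
  rw [measure_eq_tsum_singleton _ hc, ne_eq, ENNReal.tsum_eq_zero, not_forall] at h
  obtain ⟨⟨T, hT⟩, hne⟩ := h
  obtain ⟨F, rfl⟩ := (finite_of_weight hT).exists_finset_coe
  by_cases hY : ∃ Y, tree i Y = (F : Set (List ℕ × Fin 2))
  · obtain ⟨Y, hY⟩ := hY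
    simp only at hne
    rw [treeLaw_singleton _ _ Y F hY] at hne
    rw [← card_of_weight hT]
    refine odd_card hY fun p hp => ?_
    by_contra hW
    exact hne (Finset.prod_eq_zero hp (by rw [zeta_apply, if_neg hW]))
  · exact absurd (treeLaw_singleton_of_not _ _ _ fun Y h => hY ⟨Y, h⟩) hne

theorem ratio_one {g : ℕ} {T : Set (List ℕ × Fin 2)} (hT : T ∈ weightEvent (fun _ => 1) g) :
    treeLaw zeta' 1 {T} = 1 * treeLaw zeta 1 {T} := by
  obtain ⟨F, rfl⟩ := (finite_of_weight hT).exists_finset_coe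
  by_cases hY : ∃ Y, tree 1 Y = (F : Set (List ℕ × Fin 2))
  · obtain ⟨Y, hY⟩ := hY
    rw [treeLaw_singleton _ _ Y F hY, treeLaw_singleton _ _ Y F hY, one_mul]
    by_cases h0 : ∃ u, (u, 0) ∈ F
    · obtain ⟨u, hu⟩ := h0
      have hne : u ≠ [] := by
        rintro rfl
        exact absurd (root_type hY hu) (by decide)
      rw [(prod_eq_zero_of (child0 hY hne hu)).1, (prod_eq_zero_of (child0 hY hne hu)).2]
    · refine Finset.prod_congr rfl ?_
      rintro ⟨u, j⟩ hp
      rcases Fin.exists_fin_two.1 ⟨j, rfl⟩ with rfl | rfl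
      · exact absurd ⟨u, hp⟩ h0
      · rw [zeta_apply, zeta'_one]
  · rw [treeLaw_singleton_of_not _ _ _ fun Y h => hY ⟨Y, h⟩,
      treeLaw_singleton_of_not _ _ _ fun Y h => hY ⟨Y, h⟩, mul_zero]

theorem ratio_zero {g : ℕ} (hg : Odd g) {T : Set (List ℕ × Fin 2)}
    (hT : T ∈ weightEvent (fun _ => 1) g) :
    treeLaw zeta' 0 {T} = (2 * (3 : ℝ≥0∞)⁻¹) * treeLaw zeta 0 {T} := by
  obtain ⟨F, rfl⟩ := (finite_of_weight hT).exists_finset_coe
  by_cases hY : ∃ Y, tree 0 Y = (F : Set (List ℕ × Fin 2))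
  · obtain ⟨Y, hY⟩ := hY
    rw [treeLaw_singleton _ _ Y F hY, treeLaw_singleton _ _ Y F hY]
    by_cases h0 : ∃ u ≠ [], (u, 0) ∈ F
    · obtain ⟨u, hne, hu⟩ := h0
      rw [(prod_eq_zero_of (child0 hY hne hu)).1, (prod_eq_zero_of (child0 hY hne hu)).2, mul_zero]
    · have hroot := root_mem hY
      rw [← Finset.mul_prod_erase F _ hroot, ← Finset.mul_prod_erase F _ hroot]
      have hR : ∏ p ∈ F.erase ([], 0), zeta' p.2 (Y p) = ∏ p ∈ F.erase ([], 0), zeta p.2 (Y p) := by
        refine Finset.prod_congr rfl ?_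
        rintro ⟨u, j⟩ hp
        rw [Finset.mem_erase] at hp
        rcases Fin.exists_fin_two.1 ⟨j, rfl⟩ with rfl | rfl
        · refine absurd ⟨u, ?_, hp.2⟩ h0
          rintro rfl
          exact hp.1 rfl
        · rw [zeta_apply, zeta'_one]
      rw [hR]
      simp only
      rw [zeta_apply, zeta'_zero]
      by_cases h3 : Y ([], 0) ∈ W3
      · by_cases h2 : Y ([], 0) ∈ W2
        · rw [if_pos h3, if_pos h2]
          have : (2 : ℝ≥0∞) * 2⁻¹ = 1 := ENNReal.mul_inv_cancel (by norm_num) (by norm_num)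
          calc (3 : ℝ≥0∞)⁻¹ * ∏ p ∈ F.erase ([], 0), zeta p.2 (Y p)
              = (2 * 2⁻¹) * 3⁻¹ * ∏ p ∈ F.erase ([], 0), zeta p.2 (Y p) := by rw [this, one_mul]
            _ = _ := by ring
        · -- the root word is `(1)`: some other word has odd length
          have h1 := eq_one_of h3 h2
          have hz : ∏ p ∈ F.erase ([], 0), zeta p.2 (Y p) = 0 := by
            by_contra hne
            rw [← ne_eq, Finset.prod_ne_zero_iff] at hne
            have hall : ∀ p ∈ F.erase ([], 0), Y p ∈ W2 := by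
              intro p hp
              by_contra hW
              exact hne p hp (by rw [zeta_apply, if_neg hW])
            have hev : Even (∑ p ∈ F.erase ([], 0), (Y p).length) :=
              Finset.even_sum _ fun p hp => even_of_W2 (hall p hp)
            have hcard := card_tree hY
            rw [← Finset.add_sum_erase F _ hroot, h1] at hcard
            rw [card_of_weight hT] at hcard
            simp only [List.length_cons, List.length_nil] at hcard
            obtain ⟨a, ha⟩ := hev
            obtain ⟨b, hb⟩ := hg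
            omega
          rw [hz]
          simp
      · have h2 : Y ([], 0) ∉ W2 := fun h => h3 (W2_sub h)
        rw [if_neg h3, if_neg h2]
        simp
  · rw [treeLaw_singleton_of_not _ _ _ fun Y h => hY ⟨Y, h⟩,
      treeLaw_singleton_of_not _ _ _ fun Y h => hY ⟨Y, h⟩, mul_zero]

/-- With `K = 2` types and the one-row matrix `Γ = (1, 1)` there are offspring families `ζ, ζ'`
that satisfy condition (ii) but not condition (i). Under both families every type has no children
with positive probability and two children with positive probability. -/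
theorem result : ∃ ζ ζ' : Fin 2 → PMF (List (Fin 2)),
    (∀ i, ζ i [] ≠ 0 ∧ ζ i [1, 1] ≠ 0 ∧ ζ' i [] ≠ 0 ∧ ζ' i [1, 1] ≠ 0) ∧
    CondLawsAgree (fun _ => 1) ζ ζ' ∧ ¬ SupportsAgree ζ ζ' := by
  refine ⟨zeta, zeta', fun i => ?_, ?_, ?_⟩
  · have hn2 : ([] : List (Fin 2)) ∈ W2 := by simp [W2]
    have hn3 : ([] : List (Fin 2)) ∈ W3 := by simp [W3]
    have h12 : ([1, 1] : List (Fin 2)) ∈ W2 := by simp [W2]
    have h13 : ([1, 1] : List (Fin 2)) ∈ W3 := by simp [W3]
    refine ⟨by rw [zeta_apply, if_pos hn2]; simp, by rw [zeta_apply, if_pos h12]; simp, ?_, ?_⟩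
    · rcases Fin.exists_fin_two.1 ⟨i, rfl⟩ with rfl | rfl
      · rw [zeta'_zero, if_pos hn3]; simp
      · rw [zeta'_one, if_pos hn2]; simp
    · rcases Fin.exists_fin_two.1 ⟨i, rfl⟩ with rfl | rfl
      · rw [zeta'_zero, if_pos h13]; simp
      · rw [zeta'_one, if_pos h12]; simp
  · intro i g hg
    rcases Fin.exists_fin_two.1 ⟨i, rfl⟩ with rfl | rfl
    · refine cond_eq_of_ratio (measurableSet_weightEvent _ _) (fun T hT => finite_of_weight hT)
        (c := 2 * (3 : ℝ≥0∞)⁻¹) ?_ ?_ fun T hT => ratio_zero (odd_of_pos hg) hT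
      · simp
      · exact ENNReal.mul_ne_top (by norm_num) (by simp)
    · exact cond_eq_of_ratio (measurableSet_weightEvent _ _) (fun T hT => finite_of_weight hT)
        one_ne_zero ENNReal.one_ne_top fun T hT => ratio_one hT
  · intro h
    have h1 := (h 0 [1]).1 (by rw [zeta_apply, if_neg (by simp [W2])])
    rw [zeta'_zero, if_pos (by simp [W3])] at h1
    simp at h1

end Pool.Agent.Results.MP_e34f63_pr.SingleRowFails
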